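import Pool.Agent.Q282.WR.R

/-!
# A wild linear quotient whose stringy motive is not a finite sum `∑ {Z_i} / (L^{a_i} - 1)`

`K` is an algebraic closure of `𝔽₃`, `G = (ℤ/3)³`, and `G` acts on `K^{42}`, as `7` copies of
`K³ × K³`, by `(x, y) ↦ (x, y + (g₀ x₀, g₁ x₁, g₂ x₂))` (the matrices `repW 7 g`); the quotient is
the product of three copies of `K^{14} / (ℤ/3)`. By Yasuda's formula the stringy motive of
`K^{42} / G` is `∑_a {v⁻¹(a)} L^{42 - a}`, `a ∈ (1/27)ℤ`. Here the `G`-torsors over `Spec K((t))`
are parametrised by `ℕ →₀ K` (Artin-Schreier theory: `fser`), `v27W 7 F` is `27 v(F)` (computed from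
the ring of integers of the torsor algebra and the tuning module), and `stringyW 7 n` is the sum of
the terms with `a ≤ n / 27`.

The number of points of the motive over `𝔽_q` is `(q^{12} (q^7 - 1) / (q^5 - 1))³`: the
denominator has a triple zero at the fifth roots of unity, while `∑ x_i / (L^{a_i} - 1)` can only
have simple poles. Instead of the rationality of zeta functions the proof uses that
`(q^A - 1) ∑ x_i(𝔽_q) / (q^{a_i} - 1)` is an integer up to a power of `3`, and divisibility by
`(q^4 + q^3 + q^2 + q + 1)²`.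
-/

namespace Pool.Agent.Results.MP_75199a_ag.NoFiniteExpression

open Pool.Agent.Helper449.MST Pool.Agent.Q282.WR

/-- The action of `G = (ℤ/3)³` on `K^{42}` is linear and faithful, and the fixed locus of every
`g ≠ 0` has codimension `7 #{l | g_l ≠ 0} ≥ 7`: there is no pseudo-reflection. -/
def ActionOk : Prop :=
  Fintype.card (Idx 7) = 42 ∧ (∀ g h, repW 7 (g + h) = repW 7 g * repW 7 h) ∧
    Function.Injective (repW 7) ∧
    (∀ g, (repW 7 g - 1).rank = 7 * Fintype.card {l // g l ≠ 0}) ∧
    ∀ g, g ≠ 0 → 7 ≤ (repW 7 g - 1).rank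

/-- Every class of `(K((t)) / ℘ K((t)))³`, `℘ h = h³ - h`, that is every `G`-torsor over
`Spec K((t))`, is that of exactly one `F`. -/
def TorsorsOk : Prop :=
  ∀ f : Fin 3 → LaurentSeries K, ∃! F : ℕ →₀ K, ∃ h : Fin 3 → LaurentSeries K,
    ∀ l, f l - fser F l = h l ^ 3 - h l

/-- `v` is finite, and all torsors with `v = b / 27` lie in the space `K^b` in which the level
set `levelW 7 b` is taken. -/
def LevelsOk : Prop :=
  ∀ F, v27W 7 F ≠ ⊤ ∧ ∀ b : ℕ, v27W 7 F = b → ∀ i, b ≤ i → F i = 0

/-- The stringy motive of `K^{42} / (ℤ/3)³` is finite, but there are no finitely many elements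
`x_i` of the Grothendieck ring of `K`-varieties with `L^{-1}` and `L^{1/27}` adjoined (in
particular no `K`-varieties `Z_i`) and `a_i ∈ (1/27) ℤ_{>0}` with `M_st = ∑ x_i / (L^{a_i} - 1)`. -/
theorem result : ActionOk ∧ TorsorsOk ∧ LevelsOk ∧
    -- the stringy motive is finite,
    ConvergesMod relSub (stringyW 7) ∧
    -- it is not a finite sum `∑ x_i / (L^{a_i} - 1)`,
    ¬ FiniteExprMod relSub (stringyW 7) ∧
    -- not even if universally homeomorphic varieties are identified.
    ¬ FiniteExprMod relSubUH (stringyW 7) := by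
  refine ⟨⟨by simp [Fintype.card_prod, Fintype.card_sum], repW_add 7,
    repW_injective 7 (by norm_num), repW_rank 7, repW_rank_ge 7⟩, torsor_param, ?_,
    stringyW_converges, fun h => not_finiteExpr (finiteExpr_mono relSub_le _ h), not_finiteExpr⟩
  intro F
  refine ⟨?_, fun b hb i hi => support_bound_W F i ?_⟩
  · rw [v27W_eq]
    exact ENat.coe_ne_top _
  · rw [v27W_eq] at hb
    have h2 : 27 * 7 * vW F = b := by exact_mod_cast hb
    omega

end Pool.Agent.Results.MP_75199a_ag.NoFiniteExpression
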